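import Mathlib

set_option autoImplicit false

namespace Pool.Agent.Results.MP_393150_al.Group

/-- o-conjugacy. -/
def OConj {S : Type} [Semigroup S] (a b : S) : Prop := ∃ g h : S, a * g = g * b ∧ b * h = h * a

variable {S : Type} [Semigroup S]

theorem OConj.refl (a : S) : OConj a a := ⟨a, a, rfl, rfl⟩

theorem OConj.symm {a b : S} (h : OConj a b) : OConj b a :=
  let ⟨g, k, h1, h2⟩ := h; ⟨k, g, h2, h1⟩

theorem OConj.trans {a b c : S} (h : OConj a b) (h' : OConj b c) : OConj a c := by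
  obtain ⟨g, k, h1, h2⟩ := h
  obtain ⟨g', k', h3, h4⟩ := h'
  exact ⟨g * g', k' * k, by rw [← mul_assoc, h1, mul_assoc, h3, mul_assoc],
    by rw [← mul_assoc, h4, mul_assoc, h2, mul_assoc]⟩

theorem idem [Finite S] (a : S) : ∃ w : S, a * w = w * a ∧ a * w * (a * w) = a * w := by
  let _ : TopologicalSpace S := ⊥
  have : DiscreteTopology S := ⟨rfl⟩
  obtain ⟨m, ⟨w, h, rfl⟩, hm⟩ := exists_idempotent_in_compact_subsemigroup
    (fun _ => continuous_of_discreteTopology) {x | ∃ w, a * w = w * a ∧ x = a * w}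
    ⟨_, a, rfl, rfl⟩ (Set.toFinite _).isCompact (by
      rintro _ ⟨u, hu, rfl⟩ _ ⟨v, hv, rfl⟩
      refine ⟨u * (a * v), ?_, mul_assoc _ _ _⟩
      rw [← mul_assoc, hu, mul_assoc, mul_assoc, mul_assoc, ← hv])
  exact ⟨w, h, hm⟩

theorem result (S : Type) [Semigroup S] [Finite S]
    (hc : ∀ a b c d : S, OConj a b → OConj c d → OConj (a * c) (b * d)) (x y z : S) :
    (OConj (x * y) (x * z) → OConj y z) ∧ (OConj (y * x) (z * x) → OConj y z) := by
  have ee : ∀ e f : S, e * e = e → f * f = f → OConj e f := fun e f he hf =>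
    ⟨e * f, f * e, by rw [← mul_assoc, he, mul_assoc, hf], by rw [← mul_assoc, hf, mul_assoc, he]⟩
  have one : ∀ e y : S, e * e = e → OConj (e * y) y ∧ OConj (y * e) y := by
    intro e y he
    obtain ⟨w, h1, h2⟩ := idem y
    have h3 : y * (y * w) = y * w * y := by rw [mul_assoc, h1]
    have h4 : OConj (y * w * y) y := ⟨y * w, y * w, by rw [mul_assoc (y * w), h3, ← mul_assoc, h2],
      by rw [← mul_assoc (y * w), h2, h3]⟩
    exact ⟨(hc _ _ _ _ (ee _ _ he h2) (.refl y)).trans h4,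
      (hc _ _ _ _ (.refl y) (ee _ _ he h2)).trans (h3 ▸ h4)⟩
  obtain ⟨w, h1, h2⟩ := idem x
  constructor
  · intro h
    have := hc _ _ _ _ (.refl w) h
    rw [← mul_assoc, ← mul_assoc, ← h1] at this
    exact ((one _ y h2).1.symm.trans this).trans (one _ z h2).1
  · intro h
    have := hc _ _ _ _ h (.refl w)
    rw [mul_assoc, mul_assoc] at this
    exact ((one _ y h2).2.symm.trans this).trans (one _ z h2).2

end Pool.Agent.Results.MP_393150_al.Group
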